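import Pool.Agent.Helper24_SM.Glue

/-!
# The transfinite construction (helper24)
-/

namespace Helper24SM

open Filter Set Cardinal

universe v

attribute [local instance] Ultrafilter.mul Ultrafilter.semigroup

/-- entries of the profile -/
def prof {G : Type v} [Group G] (f : ℕ → G → ZMod 2) (q : G × G × ℕ) (x : G) : ZMod 2 :=
  f q.2.2 (q.2.1 * (q.1 * x)) - f q.2.2 (q.1 * x)

/-- value of a task -/
def aval {G : Type v} [Group G] (f : ℕ → G → ZMod 2) (L : List (G × G × ℕ))
    (b : Σ m : ℕ, ((Fin m → ZMod 2) → ZMod 2)) (x : G) : ZMod 2 :=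
  b.2 (fun i => (L[i.1]?).elim 0 (fun q => prof f q x))

/-- characters -/
def chi {G : Type v} (f : ℕ → G → ZMod 2) (χ : Finset ℕ) (x : G) : ZMod 2 := ∑ k ∈ χ, f k x

/-- The type of tasks. -/
abbrev Task (G : Type v) := List (G × G × ℕ) × (Σ m : ℕ, ((Fin m → ZMod 2) → ZMod 2)) × Finset ℕ

theorem mk_task_le {G : Type v} [Infinite G] : #(Task G) ≤ #G := by
  have h0 : ℵ₀ ≤ #G := Cardinal.aleph0_le_mk G
  have h1 : #(G × G × ℕ) ≤ #G := by
    simp only [Cardinal.mk_prod, Cardinal.lift_id, Cardinal.mk_nat, Cardinal.lift_aleph0,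
      Cardinal.lift_uzero]
    calc #G * (#G * ℵ₀) ≤ #G * (#G * #G) := by gcongr
      _ = #G := by rw [Cardinal.mul_eq_self h0, Cardinal.mul_eq_self h0]
  have h2 : #(List (G × G × ℕ)) ≤ #G := by
    have : Infinite (G × G × ℕ) := inferInstance
    rw [Cardinal.mk_list_eq_mk]; exact h1
  have h3 : Countable (Σ m : ℕ, ((Fin m → ZMod 2) → ZMod 2)) := inferInstance
  have h4 : #((Σ m : ℕ, ((Fin m → ZMod 2) → ZMod 2)) × Finset ℕ) ≤ ℵ₀ := Cardinal.mk_le_aleph0
  rw [Cardinal.mk_prod]
  calc _ ≤ #G * #G := by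
        gcongr
        · simp only [Cardinal.lift_id']; exact h2
        · refine le_trans (Cardinal.lift_le.2 h4) ?_
          simpa using h0
    _ = #G := Cardinal.mul_eq_self h0

/-- bookkeeping -/
theorem exists_bookkeeping {ι : Type v} [LinearOrder ι] [Infinite ι] (hι : ∀ i : ι, #(Iic i) < #ι)
    {T : Type v} [Nonempty T] (hT : #T ≤ #ι) : ∃ τ : ι → T, ∀ t i, ∃ j, i < j ∧ τ j = t := by
  have h0 : ℵ₀ ≤ #ι := Cardinal.aleph0_le_mk ι
  have hprod : #ι = #(ι × ι) := by
    rw [Cardinal.mk_prod]; simp [Cardinal.mul_eq_self h0]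
  obtain ⟨π⟩ := Cardinal.eq.1 hprod
  obtain ⟨emb⟩ := Cardinal.le_def _ _ |>.1 hT
  let s : ι → T := Function.invFun emb
  have hs : Function.Surjective s := Function.invFun_surjective emb.injective
  refine ⟨fun j => s (π j).1, fun t i => ?_⟩
  obtain ⟨a, ha⟩ := hs t
  by_contra hcon
  push Not at hcon
  have : #ι ≤ #(Iic i) := by
    refine Cardinal.mk_le_of_injective (f := fun b : ι => (⟨π.symm (a, b), ?_⟩ : Iic i)) ?_
    · by_contra h
      exact hcon _ (not_le.1 h) (by simp [ha])
    · intro b b' h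
      have h1 := congrArg Subtype.val h
      simp only at h1
      have h2 := π.symm.injective h1
      exact (Prod.mk.inj h2).2
  exact absurd this (not_le.2 (hι i))

section main

variable {G : Type v} [Group G] [Infinite G] {u : Ultrafilter G}

/-- the main construction -/
theorem exists_generic (hu : u * u = u)
    (H : ∀ S : Set G, #S < #G → ∃ δ : G → ZMod 2, Fix u δ ∧ LInv S δ ∧ ∃ g x, δ (g * x) ≠ δ x) :
    ∃ f : ℕ → G → ZMod 2, (∀ k, Fix u (f k)) ∧
      ∀ (L : List (G × G × ℕ)) (b : Σ m : ℕ, ((Fin m → ZMod 2) → ZMod 2)) (χ : Finset ℕ),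
        χ.Nonempty → ∃ x, chi f χ x ≠ aval f L b x := by
  classical
  have h0 : ℵ₀ ≤ #G := Cardinal.aleph0_le_mk G
  let ι := (#G).ord.ToType
  have hιG : #ι = #G := Cardinal.mk_ord_toType _
  have hIio : ∀ i : ι, #(Iio i) < #G := fun i => Cardinal.mk_Iio_toType_ord_lt i
  have hιinf : Infinite ι := by
    rw [← Cardinal.aleph0_le_mk_iff, hιG]; exact h0
  have hIic : ∀ i : ι, #(Iic i) < #ι := by
    intro i
    rw [← Iio_insert, hιG]
    exact lt_of_le_of_lt Cardinal.mk_insert_le
      (Cardinal.add_lt_of_lt h0 (hIio i) (lt_of_lt_of_le Cardinal.one_lt_aleph0 h0))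
  obtain ⟨e⟩ := Cardinal.eq.1 hιG
  -- the chain
  obtain ⟨D, hD⟩ := exists_rec (ι := ι) (α := (G → ZMod 2) × G)
    (fun i ih a => Fix u a.1 ∧ LInv {g | ∃ j, ∃ h : j < i, g = e j ∨ g = (ih j h).2} a.1 ∧
      ∃ x, a.1 (a.2 * x) ≠ a.1 x) (by
    intro i ih
    obtain ⟨δ, h1, h2, g, x, h3⟩ := H {g | ∃ j, ∃ h : j < i, g = e j ∨ g = (ih j h).2} (by
      have hsub : {g | ∃ j, ∃ h : j < i, g = e j ∨ g = (ih j h).2} ⊆
          (range (fun j : Iio i => e j.1)) ∪ (range (fun j : Iio i => (ih j.1 j.2).2)) := by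
        rintro g ⟨j, h, rfl | rfl⟩
        · exact Or.inl ⟨⟨j, h⟩, rfl⟩
        · exact Or.inr ⟨⟨j, h⟩, rfl⟩
      refine lt_of_le_of_lt (Cardinal.mk_le_mk_of_subset hsub) ?_
      refine lt_of_le_of_lt (Cardinal.mk_union_le _ _) ?_
      exact Cardinal.add_lt_of_lt h0 (lt_of_le_of_lt Cardinal.mk_range_le (hIio i))
        (lt_of_le_of_lt Cardinal.mk_range_le (hIio i)))
    exact ⟨(δ, g), h1, h2, x, h3⟩)
  let S : ι → Set G := fun i => {g | ∃ j, j < i ∧ (g = e j ∨ g = (D j).2)}
  let S' : ι → Set G := fun i => {g | ∃ j, j ≤ i ∧ (g = e j ∨ g = (D j).2)}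
  have hSS' : ∀ j i, j < i → S' j ⊆ S i := fun j i hji g ⟨k, hk, hg⟩ => ⟨k, hk.trans_lt hji, hg⟩
  have hSS : ∀ j, S j ⊆ S' j := fun j g ⟨k, hk, hg⟩ => ⟨k, hk.le, hg⟩
  have hS'mono : Monotone S' := fun i j hij g ⟨k, hk, hg⟩ => ⟨k, hk.trans hij, hg⟩
  let δ : ι → G → ZMod 2 := fun i => (D i).1
  have hδfix : ∀ i, Fix u (δ i) := fun i => (hD i).1
  have hδinv : ∀ i, LInv (S i) (δ i) := fun i g hg => (hD i).2.1 g (by
    obtain ⟨j, hj, h⟩ := hg; exact ⟨j, hj, h⟩)
  have hδne : ∀ i, ∃ x, δ i ((D i).2 * x) ≠ δ i x := fun i => (hD i).2.2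
  have hnS' : ∀ i, (D i).2 ∈ S' i := fun i => ⟨i, le_rfl, Or.inr rfl⟩
  -- bookkeeping
  have hTne : Nonempty (Task G) := ⟨([], ⟨0, fun _ => 0⟩, ∅)⟩
  obtain ⟨τ, hτ⟩ := exists_bookkeeping hIic (T := Task G) (by rw [hιG]; exact mk_task_le)
  -- increments
  have hd : ∀ (j : ι) (f : ℕ → G → ZMod 2), ∃ d : ℕ → G → ZMod 2, (∀ k, Fix u (d k)) ∧
      (∀ k, LInv (S j) (d k)) ∧ ((τ j).2.2.Nonempty →
        ¬ LInv (S' j) (fun x => chi (fun k x => f k x + d k x) (τ j).2.2 x
          - aval f (τ j).1 (τ j).2.1 x)) := by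
    intro j f
    by_cases hc : LInv (S' j) (fun x => chi f (τ j).2.2 x - aval f (τ j).1 (τ j).2.1 x)
    · rcases (τ j).2.2.eq_empty_or_nonempty with hχ | ⟨k₀, hk₀⟩
      · exact ⟨fun _ _ => 0, fun k => Fix.const 0, fun k g _ x => rfl, fun h => by
          rw [hχ] at h; exact absurd h (by simp)⟩
      · refine ⟨fun k => if k = k₀ then δ j else fun _ => 0, fun k => ?_, fun k => ?_, fun _ h => ?_⟩
        · by_cases hk : k = k₀
          · simp only [hk, if_true]; exact hδfix j
          · simp only [hk, if_false]; exact Fix.const 0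
        · by_cases hk : k = k₀
          · simp only [hk, if_true]; exact hδinv j
          · simp only [hk, if_false]; exact fun g _ x => rfl
        · obtain ⟨x, hx⟩ := hδne j
          apply hx
          have h1 := h _ (hnS' j) x
          have h2 := hc _ (hnS' j) x
          have hsum : ∀ y, chi (fun k x => f k x + (if k = k₀ then δ j else fun _ => 0) x)
              (τ j).2.2 y = chi f (τ j).2.2 y + δ j y := by
            intro y
            unfold chi
            rw [Finset.sum_add_distrib]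
            congr 1
            rw [Finset.sum_eq_single k₀]
            · simp
            · intro b _ hb; simp [hb]
            · intro h; exact absurd hk₀ h
          simp only [hsum] at h1
          simp only at h2
          linear_combination h1 - h2
    · refine ⟨fun _ _ => 0, fun k => Fix.const 0, fun k g _ x => rfl, fun _ h => hc ?_⟩
      simpa using h
  choose d hdfix hdinv hdne using hd
  -- the recursion
  let Q : (i : ι) → ((j : ι) → j < i → ℕ → G → ZMod 2) → (ℕ → G → ZMod 2) → Prop :=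
    fun i ih a => (∀ k, Fix u (a k)) ∧ ∀ (j : ι) (hj : j < i) (k : ℕ),
      LInv (S' j) (fun x => a k x - (ih j hj k x + d j (ih j hj) k x))
  obtain ⟨F, hF⟩ := exists_rec (ι := ι) (α := ℕ → G → ZMod 2)
    (fun i ih a => (∃ a', Q i ih a') → Q i ih a) (by
    intro i ih
    by_cases h : ∃ a', Q i ih a'
    · obtain ⟨a', ha'⟩ := h
      exact ⟨a', fun _ => ha'⟩
    · exact ⟨fun _ _ => 0, fun h' => absurd h' h⟩)
  have hQcoh : ∀ (k : ℕ) (j j' : ι), Q j' (fun j _ => F j) (F j') → j ≤ j' →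
      LInv (Subgroup.closure (S' j) : Set G)
        (fun x => (F j' k x + d j' (F j') k x) - (F j k x + d j (F j) k x)) := by
    intro k j j' hQ hjj'
    apply LInv.closure
    rcases hjj'.eq_or_lt with rfl | hlt
    · intro g _ x; simp
    · have h1 := hQ.2 j hlt k
      have h2 : LInv (S' j) (d j' (F j') k) := (hdinv j' (F j') k).mono (hSS' j j' hlt)
      intro g hg x
      have h3 := h1 g hg x
      have h4 := h2 g hg x
      simp only at h3 h4 ⊢
      linear_combination h3 + h4
  have hQ : ∀ i, Q i (fun j _ => F j) (F i) := by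
    intro i
    induction i using WellFoundedLT.induction with
    | ind i IH =>
      refine hF i ?_
      have hglue : ∀ k : ℕ, ∃ a : G → ZMod 2, Fix u a ∧ ∀ j : {j // j < i},
          LInv (Subgroup.closure (S' j.1) : Set G)
            (fun x => a x - (F j.1 k x + d j.1 (F j.1) k x)) := by
        intro k
        exact glue hu (I := {j : ι // j < i}) (fun j => Subgroup.closure (S' j.1))
          (fun j j' h => Subgroup.closure_mono (hS'mono h))
          (fun j x => F j.1 k x + d j.1 (F j.1) k x)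
          (fun j => ((IH j.1 j.2).1 k).map₂ (hdfix j.1 (F j.1) k) (fun a b => a + b))
          (fun j j' h => hQcoh k j.1 j'.1 (IH j'.1 j'.2) h)
      choose a ha1 ha2 using hglue
      refine ⟨a, ha1, fun j hj k => ?_⟩
      exact (ha2 k ⟨j, hj⟩).mono Subgroup.subset_closure
  -- the final functions
  have hglue : ∀ k : ℕ, ∃ a : G → ZMod 2, Fix u a ∧ ∀ j : ι,
      LInv (Subgroup.closure (S' j) : Set G)
        (fun x => a x - (F j k x + d j (F j) k x)) := by
    intro k
    exact glue hu (I := ι) (fun j => Subgroup.closure (S' j))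
      (fun j j' h => Subgroup.closure_mono (hS'mono h))
      (fun j x => F j k x + d j (F j) k x)
      (fun j => ((hQ j).1 k).map₂ (hdfix j (F j) k) (fun a b => a + b))
      (fun j j' h => hQcoh k j j' (hQ j') h)
  choose f hf1 hf2 using hglue
  refine ⟨f, hf1, fun L b χ hχ => ?_⟩
  by_contra hcon
  push Not at hcon
  -- an index beyond all the group elements in L
  obtain ⟨i, hi⟩ : ∃ i : ι, ∀ q ∈ L, e.symm q.2.1 ≤ i := by
    obtain ⟨i, hi⟩ := Finset.exists_le (L.toFinset.image (fun q => e.symm q.2.1))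
    exact ⟨i, fun q hq => hi _ (Finset.mem_image_of_mem _ (List.mem_toFinset.2 hq))⟩
  obtain ⟨j, hij, hj⟩ := hτ (L, b, χ) i
  have hmem : ∀ q ∈ L, q.2.1 ∈ S j := fun q hq =>
    ⟨e.symm q.2.1, (hi q hq).trans_lt hij, Or.inl (by simp)⟩
  have hdiff : ∀ k, LInv (S j) (fun x => f k x - F j k x) := by
    intro k g hg x
    have h1 := ((hf2 k j).mono Subgroup.subset_closure) g (hSS j hg) x
    have h2 := hdinv j (F j) k g hg x
    simp only at h1 h2 ⊢
    linear_combination h1 + h2
  have hprof : ∀ q ∈ L, ∀ x, prof f q x = prof (F j) q x := by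
    intro q hq x
    have h1 := hdiff q.2.2 q.2.1 (hmem q hq) (q.1 * x)
    unfold prof
    simp only at h1
    linear_combination h1
  have haval : ∀ x, aval f L b x = aval (F j) L b x := by
    intro x
    unfold aval
    refine congrArg b.2 (funext fun i => ?_)
    rcases h : L[i.1]? with _ | q
    · rfl
    · exact hprof q (List.mem_of_getElem? h) x
  have hne := hdne j (F j)
  rw [hj] at hne
  apply hne hχ
  intro g hg x
  have hall : ∀ k, f k (g * x) - (F j k (g * x) + d j (F j) k (g * x)) =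
      f k x - (F j k x + d j (F j) k x) := fun k =>
    ((hf2 k j).mono Subgroup.subset_closure) g hg x
  have hsum : ∀ y, chi (fun k x => F j k x + d j (F j) k x) χ y =
      chi f χ y - ∑ k ∈ χ, (f k y - (F j k y + d j (F j) k y)) := by
    intro y
    unfold chi
    rw [Finset.sum_sub_distrib]
    ring
  simp only [hsum, ← haval, hcon, hall]
  ring

end main

end Helper24SM
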