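import Mathlib

/-!
# Definitions: Ramsey-large subsets, syndetic submeasures (helper24)
-/

namespace Helper24SM

universe v

/-- A subset `S` of a group `G` is Ramsey-large if every finite colouring of `G` which is invariant
under left multiplication by the elements of `S` has, for every finite `E ⊆ G`, a monochromatic
right translate `E x`. -/
def RamseyLarge {G : Type v} [Group G] (S : Set G) : Prop :=
  ∀ (k : ℕ) (c : G → Fin k), (∀ s ∈ S, ∀ x, c (s * x) = c x) →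
    ∀ E : Finset G, ∃ x, ∀ e ∈ E, ∀ e' ∈ E, c (e * x) = c (e' * x)

/-- `G` has a left-invariant syndetic submeasure. -/
def HasSyndeticSubmeasure (G : Type v) [Group G] : Prop :=
  ∃ μ : Set G → ℝ,
      (∀ A : Set G, 0 ≤ μ A ∧ μ A ≤ 1) ∧
      μ ∅ = 0 ∧ μ Set.univ = 1 ∧
      (∀ A B : Set G, A ⊆ B → μ A ≤ μ B) ∧
      (∀ A B : Set G, μ (A ∪ B) ≤ μ A + μ B) ∧
      (∀ (x : G) (A : Set G), μ ((fun y => x * y) '' A) = μ A) ∧
      (∀ A : Set G, μ A < 1 → ∀ ε : ℝ, 1 / (Nat.card G : ℝ) < ε →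
        ∃ B ⊆ Aᶜ, μ B < ε ∧
          ∃ F : Finset G, ∀ g : G, ∃ f ∈ F, ∃ b ∈ B, g = f * b)

end Helper24SM
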