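import Pool.Agent.Helper24_SM.Ultra

/-!
# Gluing along a chain of subgroups (helper24)
-/

namespace Helper24SM

open Filter Set

attribute [local instance] Ultrafilter.mul Ultrafilter.semigroup

variable {G : Type*} [Group G] {u : Ultrafilter G}

/-- left invariance under a set of elements -/
def LInv {V : Type*} (S : Set G) (c : G → V) : Prop := ∀ g ∈ S, ∀ x, c (g * x) = c x

theorem LInv.closure {V : Type*} {S : Set G} {c : G → V} (h : LInv S c) :
    LInv (Subgroup.closure S : Set G) c := by
  intro g hg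
  have hg' : g ∈ Subgroup.closure S := hg
  clear hg
  induction hg' using Subgroup.closure_induction with
  | mem g hg => exact h g hg
  | one => intro x; simp
  | mul a b _ _ ha hb => intro x; rw [mul_assoc, ha, hb]
  | inv a _ ha => intro x; rw [← ha (a⁻¹ * x), mul_inv_cancel_left]

theorem LInv.mono {V : Type*} {S T : Set G} {c : G → V} (h : LInv T c) (hST : S ⊆ T) :
    LInv S c := fun g hg => h g (hST hg)

theorem LInv.add {S : Set G} {c d : G → ZMod 2} (hc : LInv S c) (hd : LInv S d) :
    LInv S (fun x => c x + d x) := fun g hg x => by simp only [hc g hg x, hd g hg x]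

theorem LInv.sub {S : Set G} {c d : G → ZMod 2} (hc : LInv S c) (hd : LInv S d) :
    LInv S (fun x => c x - d x) := fun g hg x => by simp only [hc g hg x, hd g hg x]

/-- coset representatives -/
theorem exists_reps (J : Subgroup G) :
    ∃ r : G → G, (∀ x, x * (r x)⁻¹ ∈ J) ∧ ∀ g ∈ J, ∀ x, r (g * x) = r x := by
  classical
  let s := QuotientGroup.rightRel J
  refine ⟨fun x => (Quotient.mk s x).out, fun x => ?_, fun g hg x => ?_⟩
  · have h : s ((Quotient.mk s x).out) x := Quotient.mk_out x
    exact QuotientGroup.rightRel_apply.1 h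
  · have : Quotient.mk s (g * x) = Quotient.mk s x := by
      apply Quotient.sound
      refine QuotientGroup.rightRel_apply.2 ?_
      simpa using J.inv_mem hg
    simp only [this]

/-- Gluing lemma. -/
theorem glue (hu : u * u = u) {I : Type*} [LinearOrder I] (J : I → Subgroup G) (hJ : Monotone J)
    (f : I → G → ZMod 2) (hf : ∀ i, Fix u (f i))
    (hcoh : ∀ i j, i ≤ j → LInv (J i : Set G) (fun x => f j x - f i x)) :
    ∃ F : G → ZMod 2, Fix u F ∧ ∀ i, LInv (J i : Set G) (fun x => F x - f i x) := by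
  classical
  rcases isEmpty_or_nonempty I with hI | hI
  · exact ⟨fun _ => 0, Fix.const 0, fun i => (hI.false i).elim⟩
  obtain ⟨r, hr1, hr2⟩ := exists_reps (⨆ i, J i)
  have hmem : ∀ g, g ∈ (⨆ i, J i) ↔ ∃ i, g ∈ J i := fun g =>
    Subgroup.mem_iSup_of_directed hJ.directed_le
  have hidx : ∀ x, ∃ i, x * (r x)⁻¹ ∈ J i := fun x => (hmem _).1 (hr1 x)
  choose ix hix using hidx
  let F₀ : G → ZMod 2 := fun x => f (ix x) x - f (ix x) (r x)
  have hF₀ : ∀ x i, x * (r x)⁻¹ ∈ J i → F₀ x = f i x - f i (r x) := by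
    intro x i hi
    have key : ∀ i j, i ≤ j → x * (r x)⁻¹ ∈ J i → f j x - f j (r x) = f i x - f i (r x) := by
      intro i j hij hi
      have h1 := hcoh i j hij (x * (r x)⁻¹) hi (r x)
      simp only [inv_mul_cancel_right] at h1
      linear_combination h1
    rcases le_total (ix x) i with h | h
    · exact (key _ _ h (hix x)).symm
    · exact key _ _ h hi
  have hinv : ∀ i, LInv (J i : Set G) (fun x => F₀ x - f i x) := by
    intro i g hg x
    have hg' : g ∈ ⨆ i, J i := (hmem g).2 ⟨i, hg⟩
    have hrg := hr2 g hg' x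
    let j := max i (ix x)
    have hxj : x * (r x)⁻¹ ∈ J j := hJ (le_max_right _ _) (hix x)
    have hgj : g ∈ J j := hJ (le_max_left _ _) hg
    have hgxj : g * x * (r (g * x))⁻¹ ∈ J j := by
      rw [hrg, mul_assoc]
      exact (J j).mul_mem hgj hxj
    have h1 := hF₀ x j hxj
    have h2 := hF₀ (g * x) j hgxj
    have h3 := hcoh i j (le_max_left _ _) g hg x
    simp only at h3 ⊢
    rw [h1, h2, hrg]
    linear_combination h3
  obtain ⟨F, hF, hFlim⟩ := exists_retract hu F₀
  refine ⟨F, hF, fun i g hg x => ?_⟩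
  have h1 := hFlim x
  have h2 := hFlim (g * x)
  have h3 := hf i x
  have h4 := hf i (g * x)
  obtain ⟨y, ⟨h1, h2⟩, h3, h4⟩ := ((h1.and h2).and (h3.and h4)).exists
  have h5 := hinv i g hg (x * y)
  simp only at h5 ⊢
  rw [← h1, ← h2, ← h3, ← h4, mul_assoc, h5]

/-- Recursion principle. -/
theorem exists_rec {ι : Type*} [LinearOrder ι] [WellFoundedLT ι] {α : Type*}
    (P : (i : ι) → ((j : ι) → j < i → α) → α → Prop) (h : ∀ i ih, ∃ a, P i ih a) :
    ∃ F : ι → α, ∀ i, P i (fun j _ => F j) (F i) := by
  classical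
  choose next hnext using h
  let F : ι → α := WellFounded.fix (wellFounded_lt (α := ι)) (fun i ih => next i ih)
  refine ⟨F, fun i => ?_⟩
  have hF : F i = next i (fun j _ => F j) := WellFounded.fix_eq _ _ _
  rw [hF]
  exact hnext _ _

end Helper24SM
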