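import Pool.Agent.Helper24_SM.Chain

/-!
# Independence and the submeasure (helper24)
-/

namespace Helper24SM

open Filter Set Cardinal

universe v

attribute [local instance] Ultrafilter.mul Ultrafilter.semigroup

variable {G : Type v} [Group G]

/-- `a` is a function of finitely many increments of `f`. -/
def MeasF (f : ℕ → G → ZMod 2) {V : Type*} (a : G → V) : Prop :=
  ∃ L : Finset (G × G × ℕ), ∀ x x', (∀ q ∈ L, prof f q x = prof f q x') → a x = a x'

/-- the cell of a point -/
def cell (f : ℕ → G → ZMod 2) (L : Finset (G × G × ℕ)) (x₀ : G) : Set G :=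
  {x | ∀ q ∈ L, prof f q x = prof f q x₀}

variable {f : ℕ → G → ZMod 2}

theorem MeasF.pi {ι V : Type*} [Finite ι] {a : ι → G → V} (h : ∀ i, MeasF f (a i)) :
    MeasF f (fun x => fun i => a i x) := by
  classical
  have := Fintype.ofFinite ι
  choose L hL using h
  refine ⟨Finset.univ.biUnion L, fun x x' hx => funext fun i => hL i x x' fun q hq => hx q ?_⟩
  exact Finset.mem_biUnion.2 ⟨i, Finset.mem_univ _, hq⟩

theorem MeasF.prod {V W : Type*} {a : G → V} {b : G → W} (ha : MeasF f a) (hb : MeasF f b) :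
    MeasF f (fun x => (a x, b x)) := by
  classical
  obtain ⟨L, hL⟩ := ha
  obtain ⟨M, hM⟩ := hb
  refine ⟨L ∪ M, fun x x' hx => Prod.ext ?_ ?_⟩
  · exact hL x x' fun q hq => hx q (Finset.mem_union_left _ hq)
  · exact hM x x' fun q hq => hx q (Finset.mem_union_right _ hq)

theorem MeasF.map {V W : Type*} {a : G → V} (ha : MeasF f a) (Φ : V → W) :
    MeasF f (fun x => Φ (a x)) := by
  obtain ⟨L, hL⟩ := ha
  exact ⟨L, fun x x' hx => congrArg Φ (hL x x' hx)⟩

theorem MeasF.translate {V : Type*} {a : G → V} (ha : MeasF f a) (c : G) :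
    MeasF f (fun x => a (c * x)) := by
  classical
  obtain ⟨L, hL⟩ := ha
  refine ⟨L.image (fun q => (q.1 * c, q.2)), fun x x' hx => hL _ _ fun q hq => ?_⟩
  have := hx _ (Finset.mem_image_of_mem _ hq)
  simpa only [prof, mul_assoc] using this

theorem measF_incr (k : ℕ) (g : G) : MeasF f (fun x => f k (g * x) - f k x) := by
  refine ⟨{(1, g, k)}, fun x x' hx => ?_⟩
  have := hx _ (Finset.mem_singleton_self _)
  simpa only [prof, one_mul] using this

theorem measF_cell (L : Finset (G × G × ℕ)) (x₀ : G) : MeasF f (fun x => x ∈ cell f L x₀) := by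
  refine ⟨L, fun x x' hx => ?_⟩
  apply propext
  constructor
  · intro h q hq
    rw [← hx q hq]; exact h q hq
  · intro h q hq
    rw [hx q hq]; exact h q hq

variable {u : Ultrafilter G}

theorem fix_prof (hf : ∀ k, Fix u (f k)) (q : G × G × ℕ) : Fix u (prof f q) := by
  have h1 : Fix u (fun x => f q.2.2 (q.2.1 * (q.1 * x))) := by
    have := (hf q.2.2).translate (q.2.1 * q.1)
    simpa only [mul_assoc] using this
  exact h1.map₂ ((hf q.2.2).translate q.1) (fun a b => a - b)

theorem Fix.forall_finset {ι : Type*} (s : Finset ι) {P : ι → G → Prop}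
    (h : ∀ i ∈ s, Fix u (P i)) : Fix u (fun x => ∀ i ∈ s, P i x) := by
  intro x
  have : ∀ᶠ y in (u : Filter G), ∀ i ∈ s, P i (x * y) = P i x := by
    rw [eventually_all_finset]
    exact fun i hi => h i hi x
  refine this.mono fun y hy => propext ⟨fun H i hi => ?_, fun H i hi => ?_⟩
  · rw [← hy i hi]; exact H i hi
  · rw [hy i hi]; exact H i hi

theorem fix_cell (hf : ∀ k, Fix u (f k)) (L : Finset (G × G × ℕ)) (x₀ : G) :
    Fix u (fun x => x ∈ cell f L x₀) := by
  apply Fix.forall_finset L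
  intro q _
  exact (fix_prof hf q).map (fun a => a = prof f q x₀)

/-- The independence hypothesis. -/
def Ind (f : ℕ → G → ZMod 2) : Prop :=
  ∀ χ : Finset ℕ, χ.Nonempty → ¬ MeasF f (chi f χ)

theorem ind_of_tasks
    (h : ∀ (L : List (G × G × ℕ)) (b : Σ m : ℕ, ((Fin m → ZMod 2) → ZMod 2)) (χ : Finset ℕ),
        χ.Nonempty → ∃ x, chi f χ x ≠ aval f L b x) : Ind f := by
  classical
  rintro χ hχ ⟨L, hL⟩
  let l := L.toList
  let b : Σ m : ℕ, ((Fin m → ZMod 2) → ZMod 2) := ⟨l.length, fun v =>
    if h : ∃ x, ∀ i : Fin l.length, prof f (l.get i) x = v i then chi f χ h.choose else 0⟩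
  obtain ⟨x, hx⟩ := h l b χ hχ
  apply hx
  have h1 : (fun i : Fin l.length => (l[i.1]?).elim 0 (fun q => prof f q x)) =
      fun i => prof f (l.get i) x := by
    funext i
    simp
  have hex : ∃ y, ∀ i : Fin l.length, prof f (l.get i) y = prof f (l.get i) x := ⟨x, fun i => rfl⟩
  have h2 : aval f l b x = chi f χ hex.choose := by
    have h3 : aval f l b x = b.2 (fun i : Fin l.length => prof f (l.get i) x) :=
      congrArg b.2 h1
    rw [h3]
    exact dif_pos hex
  rw [h2]
  apply hL
  intro q hq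
  obtain ⟨i, hi⟩ := List.mem_iff_get.1 (Finset.mem_toList.2 hq)
  rw [← hi]
  exact (hex.choose_spec i).symm

/-- All values are taken on every cell. -/
theorem values (hmin : ∀ p : Ultrafilter G, ∃ q : Ultrafilter G, q * (p * u) = u)
    (hf : ∀ k, Fix u (f k)) (hind : Ind f) (N : ℕ) (L : Finset (G × G × ℕ)) (x₁ : G)
    (v : Fin N → ZMod 2) : ∃ y ∈ cell f L x₁, ∀ k : Fin N, f k y = v k := by
  classical
  let F : G → (Fin N → ZMod 2) := fun x k => f k x
  have hFfix : Fix u F := Fix.pi fun k => hf k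
  -- minimal cell
  let p₀ : Finset (G × G × ℕ) × G :=
    Function.argmin (fun p : Finset (G × G × ℕ) × G => (F '' cell f p.1 p.2).ncard)
  have hp₀ : ∀ p : Finset (G × G × ℕ) × G,
      (F '' cell f p₀.1 p₀.2).ncard ≤ (F '' cell f p.1 p.2).ncard := fun p =>
    Function.argmin_le (fun p : Finset (G × G × ℕ) × G => (F '' cell f p.1 p.2).ncard) p
  obtain ⟨L₀, x₀⟩ := p₀
  simp only at hp₀
  have hsub : ∀ L, F '' cell f (L₀ ∪ L) x₀ = F '' cell f L₀ x₀ := by
    intro L
    apply Set.eq_of_subset_of_ncard_le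
    · apply image_mono
      intro x hx q hq
      exact hx q (Finset.mem_union_left _ hq)
    · exact hp₀ (L₀ ∪ L, x₀)
    · exact Set.toFinite _
  have hmeas : ∀ (Γ : Finset G) (L' : Finset (G × G × ℕ)) (x' : G),
      MeasF f (fun x => fun g : Γ => ((F (g.1 * x) - F x : Fin N → ZMod 2),
        (g.1 * x ∈ cell f L' x' : Prop))) := by
    intro Γ L' x'
    apply MeasF.pi
    intro g
    apply MeasF.prod
    · exact MeasF.pi (a := fun (k : Fin N) x => f k.1 (g.1 * x) - f k.1 x)
        fun k => measF_incr k.1 g.1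
    · exact (measF_cell L' x').translate g.1
  -- translation property
  have key : ∀ s ∈ F '' cell f L₀ x₀, ∀ s' ∈ F '' cell f L₀ x₀, ∀ (L' : Finset (G × G × ℕ)) (x : G),
      ∃ y ∈ cell f L' x, F y = F x + (s' - s) := by
    intro s hs s' hs' L' x'
    obtain ⟨Γ, hΓ⟩ := Fix.syndetic hmin
      ((fix_cell hf L' x').map₂ (hFfix.map (fun w => w = F x')) (fun a b => a ∧ b))
      (x₀ := x') ⟨fun q _ => rfl, rfl⟩
    obtain ⟨L₁, hL₁⟩ := hmeas Γ L' x'
    rw [← hsub L₁] at hs hs'
    obtain ⟨x, hx, rfl⟩ := hs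
    obtain ⟨y, hy, rfl⟩ := hs'
    obtain ⟨g, hg, hgx1, hgx2⟩ := hΓ x
    have hxy := hL₁ x y (fun q hq => by
      rw [hx q (Finset.mem_union_right _ hq), hy q (Finset.mem_union_right _ hq)])
    have h1 := congrFun hxy ⟨g, hg⟩
    simp only [Prod.mk.injEq, eq_iff_iff] at h1
    refine ⟨g * y, h1.2.1 hgx1, ?_⟩
    have h2 := h1.1
    rw [hgx2] at h2
    have h3 : F (g * y) = (F x' - F x) + F y := by rw [h2]; abel
    rw [h3]; abel
  -- the subspace
  let V₀ : Submodule (ZMod 2) (Fin N → ZMod 2) :=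
    { carrier := {v | ∀ (L' : Finset (G × G × ℕ)) (x : G), ∃ y ∈ cell f L' x, F y = F x + v}
      add_mem' := by
        intro v w hv hw L' x
        obtain ⟨y, hy, hyv⟩ := hv L' x
        obtain ⟨z, hz, hzw⟩ := hw L' y
        refine ⟨z, fun q hq => by rw [hz q hq, hy q hq], ?_⟩
        rw [hzw, hyv]; abel
      zero_mem' := fun L' x => ⟨x, fun q _ => rfl, by simp⟩
      smul_mem' := by
        intro c v hv
        have hc : c = 0 ∨ c = 1 := by
          revert c; decide
        rcases hc with rfl | rfl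
        · intro L' x
          exact ⟨x, fun q _ => rfl, by simp⟩
        · simpa using hv }
  have hV₀ : V₀ = ⊤ := by
    by_contra hne
    obtain ⟨φ, hφ0, hφ⟩ := Submodule.exists_le_ker_of_lt_top V₀ (lt_top_iff_ne_top.2 hne)
    let χ : Finset ℕ := (Finset.univ.filter (fun k : Fin N => φ (Pi.single k 1) = 1)).map
      Fin.valEmbedding
    have hφF : ∀ x, φ (F x) = chi f χ x := by
      intro x
      have h1 : φ (F x) = ∑ k, F x k * φ (Pi.single k 1) := by
        have : F x = ∑ k, F x k • (Pi.single k (1 : ZMod 2) : Fin N → ZMod 2) := by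
          funext j
          simp [Finset.sum_apply, Pi.single_apply]
        conv_lhs => rw [this]
        simp
      rw [h1]
      unfold chi
      simp only [χ, Finset.sum_map, Fin.valEmbedding_apply, Finset.sum_filter]
      refine Finset.sum_congr rfl fun k _ => ?_
      have hc : φ (Pi.single k 1) = 0 ∨ φ (Pi.single k 1) = 1 := by
        generalize φ (Pi.single k 1) = c
        revert c; decide
      rcases hc with h | h
      · simp [h]
      · simp [h, F]
    have hχ : χ.Nonempty := by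
      by_contra hemp
      rw [Finset.not_nonempty_iff_eq_empty] at hemp
      apply hφ0
      apply LinearMap.pi_ext'
      intro k
      ext
      simp only [LinearMap.comp_apply, LinearMap.single_apply, LinearMap.zero_apply]
      have hc : φ (Pi.single k 1) = 0 ∨ φ (Pi.single k 1) = 1 := by
        generalize φ (Pi.single k 1) = c
        revert c; decide
      rcases hc with h | h
      · exact h
      · exfalso
        have : (k : ℕ) ∈ χ := by
          simp only [χ, Finset.mem_map, Finset.mem_filter, Finset.mem_univ, true_and]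
          exact ⟨k, h, rfl⟩
        rw [hemp] at this
        simp at this
    apply hind χ hχ
    have hconst : ∀ x ∈ cell f L₀ x₀, φ (F x) = φ (F x₀) := by
      intro x hx
      have hx₀ : x₀ ∈ cell f L₀ x₀ := fun q _ => rfl
      have : F x - F x₀ ∈ V₀ := fun L' y => key (F x₀) ⟨x₀, hx₀, rfl⟩ (F x) ⟨x, hx, rfl⟩ L' y
      have h2 := hφ this
      rw [LinearMap.mem_ker, map_sub] at h2
      linear_combination h2
    obtain ⟨Γ, hΓ⟩ := Fix.syndetic hmin (fix_cell hf L₀ x₀) (x₀ := x₀) (fun q _ => rfl)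
    obtain ⟨L₁, hL₁⟩ := hmeas Γ L₀ x₀
    refine ⟨L₁, fun x x' hxx' => ?_⟩
    rw [← hφF, ← hφF]
    obtain ⟨g, hg, hgx⟩ := hΓ x
    have h1 := congrFun (hL₁ x x' hxx') ⟨g, hg⟩
    simp only [Prod.mk.injEq, eq_iff_iff] at h1
    have h2 := hconst _ hgx
    have h3 := hconst _ (h1.2.1 hgx)
    have h4 := congrArg φ h1.1
    rw [map_sub, map_sub, h2, h3] at h4
    linear_combination -h4
  have hv : v - F x₁ ∈ V₀ := by rw [hV₀]; trivial
  obtain ⟨y, hy, hyv⟩ := hv L x₁
  refine ⟨y, hy, fun k => ?_⟩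
  have := congrFun hyv k
  simp only [Pi.add_apply, Pi.sub_apply, F] at this
  rw [this]; ring

end Helper24SM
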