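import Pool.Agent.Helper24_SM.Measure

/-!
# Groups without small Ramsey-large subgroups (helper24)
-/

namespace Helper24SM

open Filter Set Cardinal

universe v

attribute [local instance] Ultrafilter.mul Ultrafilter.semigroup

theorem exists_delta {G : Type v} [Group G] {u : Ultrafilter G} (hu : u * u = u) {S : Set G}
    (hS : ¬ RamseyLarge S) :
    ∃ δ : G → ZMod 2, Fix u δ ∧ LInv S δ ∧ ∃ g x, δ (g * x) ≠ δ x := by
  classical
  unfold RamseyLarge at hS
  push Not at hS
  obtain ⟨k, c, hc, E, hE⟩ := hS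
  obtain ⟨C, hC, hClim⟩ := exists_retract hu c
  have hCinv : LInv S C := by
    intro s hs x
    have h1 := hClim x
    have h2 := hClim (s * x)
    obtain ⟨y, h1, h2⟩ := (h1.and h2).exists
    rw [← h1, ← h2, mul_assoc, hc s hs]
  have hne : ∃ x y, C x ≠ C y := by
    by_contra hcon
    push Not at hcon
    have h1 : ∀ᶠ y in (u : Filter G), ∀ e ∈ E, c (e * y) = C 1 := by
      rw [eventually_all_finset]
      intro e _
      rw [hcon 1 e]
      exact hClim e
    obtain ⟨y, hy⟩ := h1.exists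
    obtain ⟨e, he, e', he', hee'⟩ := hE y
    exact hee' ((hy e he).trans (hy e' he').symm)
  obtain ⟨x, y, hxy⟩ := hne
  refine ⟨fun z => if C z = C x then 1 else 0, hC.map (fun a => if a = C x then 1 else 0),
    fun s hs z => by simp only [hCinv s hs z], y * x⁻¹, x, ?_⟩
  have : C y ≠ C x := fun h => hxy h.symm
  simp [this]

/-- The main theorem. -/
theorem main {G : Type v} [Group G] [Infinite G]
    (H : ∀ S : Set G, #S < #G → ¬ RamseyLarge S) : HasSyndeticSubmeasure G := by
  obtain ⟨u, hu, hmin⟩ := exists_min_idem (G := G)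
  obtain ⟨f, hf, hind⟩ := exists_generic hu (fun S hS => exists_delta hu (H S hS))
  exact hasSyndetic_of_ind hmin hf (ind_of_tasks hind)

/-- Pulling back along a surjective homomorphism. -/
theorem HasSyndeticSubmeasure.comap {G Q : Type*} [Group G] [Group Q] [Infinite Q] (φ : G →* Q)
    (hφ : Function.Surjective φ) (h : HasSyndeticSubmeasure Q) : HasSyndeticSubmeasure G := by
  classical
  obtain ⟨μ, h01, hemp, huniv, hmono, hsub, hinv, hsynd⟩ := h
  refine ⟨fun A => μ (φ '' A), fun A => h01 _, by simpa using hemp, ?_, ?_, ?_, ?_, ?_⟩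
  · simpa [image_univ, hφ.range_eq] using huniv
  · exact fun A B hAB => hmono _ _ (image_mono hAB)
  · intro A B
    simp only [image_union]
    exact hsub _ _
  · intro x A
    have : φ '' ((fun y => x * y) '' A) = (fun y => φ x * y) '' (φ '' A) := by
      rw [image_image, image_image]
      simp only [map_mul]
    simp only [this, hinv]
  · intro A hA ε hε
    have hε' : 1 / (Nat.card Q : ℝ) < ε := by
      refine lt_of_le_of_lt ?_ hε
      simp only [Nat.card_eq_zero_of_infinite, Nat.cast_zero, div_zero]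
      positivity
    obtain ⟨B, hBA, hBε, F, hF⟩ := hsynd _ hA ε hε'
    refine ⟨φ ⁻¹' B, ?_, ?_, F.image (Function.surjInv hφ), fun g => ?_⟩
    · intro x hx hxA
      exact hBA hx (mem_image_of_mem _ hxA)
    · simp only [image_preimage_eq _ hφ]
      exact hBε
    · obtain ⟨f, hf, b, hb, hfb⟩ := hF (φ g)
      refine ⟨_, Finset.mem_image_of_mem _ hf, (Function.surjInv hφ f)⁻¹ * g, ?_, by simp⟩
      rw [mem_preimage, map_mul, map_inv, Function.surjInv_eq hφ f, hfb]
      simpa using hb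

/-- A proper subgroup of finite index of some subgroup is not Ramsey-large. -/
theorem not_ramseyLarge_of_finiteIndex {G : Type v} [Group G] {S : Set G} (N₀ N : Subgroup G)
    (hS : S ⊆ N₀) (hlt : N₀ < N) (hfin : N₀.relIndex N ≠ 0) : ¬ RamseyLarge S := by
  classical
  intro hR
  obtain ⟨r, hr1, hr2⟩ := exists_reps N
  -- the right cosets of N₀ in N
  let N₁ : Subgroup N := N₀.subgroupOf N
  have hfi : N₁.FiniteIndex := ⟨hfin⟩
  let Q := Quotient (QuotientGroup.rightRel N₁)
  have hQfin : Finite Q :=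
    (QuotientGroup.quotientRightRelEquivQuotientLeftRel N₁).finite_iff.2
      (inferInstanceAs (Finite (N ⧸ N₁)))
  obtain ⟨k, ⟨eQ⟩⟩ := Finite.exists_equiv_fin Q
  let ν : G → N := fun x => ⟨x * (r x)⁻¹, hr1 x⟩
  have hν : ∀ g : N, ∀ x, ν (g * x) = g * ν x := by
    intro g x
    apply Subtype.ext
    simp only [ν, hr2 g.1 g.2, Subgroup.coe_mul, mul_assoc]
  let c : G → Fin k := fun x => eQ (Quotient.mk _ (ν x))
  have hcinv : ∀ s ∈ S, ∀ x, c (s * x) = c x := by
    intro s hs x
    have hsN : s ∈ N := hlt.le (hS hs)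
    have h1 := hν ⟨s, hsN⟩ x
    simp only at h1
    simp only [c, h1]
    congr 1
    apply Quotient.sound
    refine QuotientGroup.rightRel_apply.2 ?_
    have : ν x * ((⟨s, hsN⟩ : N) * ν x)⁻¹ = (⟨s, hsN⟩ : N)⁻¹ := by group
    rw [this]
    exact N₁.inv_mem (hS hs)
  obtain ⟨n, hnN, hnN₀⟩ := SetLike.exists_of_lt hlt
  obtain ⟨x, hx⟩ := hR k c hcinv {1, n}
  have h1 := hx 1 (by simp) n (by simp)
  rw [one_mul] at h1
  have h2 := eQ.injective h1
  have h3 : QuotientGroup.rightRel N₁ (ν x) (ν (n * x)) := Quotient.exact h2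
  rw [QuotientGroup.rightRel_apply, hν ⟨n, hnN⟩ x] at h3
  simp only [mul_inv_cancel_right] at h3
  exact hnN₀ h3

/-- colourings moved by a translation of infinite order -/
theorem exists_kappa {Γ : Type*} [Group Γ] (τ : Γ) (hτ : ¬ IsOfFinOrder τ) :
    ∃ κ : Γ → Fin 2, ∀ γ, κ (τ * γ) ≠ κ γ := by
  classical
  obtain ⟨r, hr1, hr2⟩ := exists_reps (Subgroup.zpowers τ)
  have hr1' : ∀ x, ∃ m : ℤ, τ ^ m = x * (r x)⁻¹ := fun x => Subgroup.mem_zpowers_iff.1 (hr1 x)
  choose m hm using hr1'
  have hinj := injective_zpow_iff_not_isOfFinOrder.2 hτ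
  have hstep : ∀ γ, m (τ * γ) = m γ + 1 := by
    intro γ
    apply hinj
    simp only
    rw [hm, hr2 τ (Subgroup.mem_zpowers τ) γ, mul_assoc, ← hm, zpow_add, zpow_one]
    exact (Commute.self_zpow τ _).eq
  refine ⟨fun γ => if Even (m γ) then 0 else 1, fun γ => ?_⟩
  simp only [hstep]
  by_cases h : Even (m γ)
  · have : ¬ Even (m γ + 1) := by
      rw [Int.not_even_iff_odd]; exact h.add_one
    simp [h, this]
  · have : Even (m γ + 1) := (Int.not_even_iff_odd.1 h).add_one
    simp [h, this]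

/-- the translation criterion -/
theorem not_ramseyLarge_of_translation {G : Type v} [Group G] {S : Set G} {Γ : Type*} [Group Γ]
    (τ : Γ) (hτ : ¬ IsOfFinOrder τ) (φ : G → Γ) (hφ : ∀ s ∈ S, ∀ x, φ (s * x) = φ x)
    (E : Finset G) (hE : ∀ x, ∃ e ∈ E, φ (e * x) = τ * φ x) : ¬ RamseyLarge S := by
  classical
  intro hR
  obtain ⟨κ, hκ⟩ := exists_kappa τ hτ
  obtain ⟨x, hx⟩ := hR 2 (fun x => κ (φ x)) (fun s hs x => by simp only [hφ s hs x]) (insert 1 E)
  obtain ⟨e, he, hex⟩ := hE x
  have := hx e (Finset.mem_insert_of_mem he) 1 (Finset.mem_insert_self _ _)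
  simp only [hex, one_mul] at this
  exact hκ _ this

end Helper24SM
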