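import Pool.Agent.Helper24_SM.Indep
import Pool.Agent.Helper24_SM.Defs

/-!
# The submeasure (helper24)
-/

namespace Helper24SM

open Filter Set

universe v

attribute [local instance] Ultrafilter.mul Ultrafilter.semigroup

variable {G : Type v} [Group G] {f : ℕ → G → ZMod 2} {u : Ultrafilter G}

/-- cost of a finite pattern -/
noncomputable def cost (T : Finset (G × ℕ)) : ℝ := ∑ p ∈ T, (1 / 2 : ℝ) ^ p.2

theorem cost_nonneg (T : Finset (G × ℕ)) : 0 ≤ cost T :=
  Finset.sum_nonneg fun _ _ => by positivity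

/-- The set of points hit by the pattern. -/
def Hit (f : ℕ → G → ZMod 2) (T : Finset (G × ℕ)) (x : G) : Prop :=
  ∃ p ∈ T, ∀ k < p.2, f k (p.1 * x) = 0

theorem card_bad (N n : ℕ) (hn : n ≤ N) (a : Fin N → ZMod 2) :
    ((Fintype.piFinset fun k : Fin N => if k.1 < n then {a k} else
      (Finset.univ : Finset (ZMod 2))).card : ℝ) = 2 ^ N * (1 / 2 : ℝ) ^ n := by
  rw [Fintype.card_piFinset]
  have h1 : ∀ k : Fin N, ((if k.1 < n then {a k} else (Finset.univ : Finset (ZMod 2))).card) =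
      (fun k : ℕ => if k < n then 1 else 2) k.1 := by
    intro k
    by_cases h : k.1 < n <;> simp [h, ZMod.card]
  simp only [h1]
  rw [Fin.prod_univ_eq_prod_range (fun k : ℕ => if k < n then 1 else 2) N]
  obtain ⟨m, rfl⟩ := Nat.exists_eq_add_of_le hn
  rw [Finset.prod_range_add]
  have h2 : ∏ x ∈ Finset.range n, (if x < n then 1 else 2) = 1 :=
    Finset.prod_eq_one fun x hx => by simp [Finset.mem_range.1 hx]
  have h3 : ∏ x ∈ Finset.range m, (if n + x < n then 1 else 2) = 2 ^ m := by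
    simp
  rw [h2, h3]
  push_cast
  rw [pow_add, one_mul]
  have h4 : (2 : ℝ) ^ n * (1 / 2) ^ n = 1 := by
    rw [← mul_pow]; norm_num
  calc (2 : ℝ) ^ m = (2 ^ n * (1 / 2) ^ n) * 2 ^ m := by rw [h4, one_mul]
    _ = 2 ^ n * 2 ^ m * (1 / 2) ^ n := by ring

theorem nocover (hmin : ∀ p : Ultrafilter G, ∃ q : Ultrafilter G, q * (p * u) = u)
    (hf : ∀ k, Fix u (f k)) (hind : Ind f) (T : Finset (G × ℕ)) (hT : cost T < 1) :
    ∃ x, ¬ Hit f T x := by
  classical
  obtain ⟨N, hN⟩ : ∃ N, ∀ p ∈ T, p.2 ≤ N := by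
    refine ⟨T.sup (fun p => p.2), fun p hp => Finset.le_sup (f := fun p : G × ℕ => p.2) hp⟩
  let a : G → ℕ → ZMod 2 := fun g k => prof f (1, g, k) 1
  let bad : G × ℕ → Finset (Fin N → ZMod 2) := fun p =>
    Fintype.piFinset fun k : Fin N => if k.1 < p.2 then {-(a p.1 k.1)} else Finset.univ
  have hbad : ∀ p ∈ T, ((bad p).card : ℝ) = 2 ^ N * (1 / 2 : ℝ) ^ p.2 := fun p hp =>
    card_bad N p.2 (hN p hp) _
  obtain ⟨v, hv⟩ : ∃ v : Fin N → ZMod 2, ∀ p ∈ T, v ∉ bad p := by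
    by_contra hcon
    push Not at hcon
    have h1 : (Finset.univ : Finset (Fin N → ZMod 2)) ⊆ T.biUnion bad := by
      intro v _
      obtain ⟨p, hp, hvp⟩ := hcon v
      exact Finset.mem_biUnion.2 ⟨p, hp, hvp⟩
    have h2 := (Finset.card_le_card h1).trans Finset.card_biUnion_le
    have h3 : ((Finset.univ : Finset (Fin N → ZMod 2)).card : ℝ) ≤ ∑ p ∈ T, ((bad p).card : ℝ) := by
      exact_mod_cast h2
    rw [Finset.sum_congr rfl hbad, ← Finset.mul_sum] at h3
    have h4 : ((Finset.univ : Finset (Fin N → ZMod 2)).card : ℝ) = 2 ^ N := by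
      simp [ZMod.card]
    rw [h4] at h3
    unfold cost at hT
    have h5 : (0 : ℝ) < 2 ^ N := by positivity
    nlinarith
  let L : Finset (G × G × ℕ) := (T ×ˢ Finset.range N).image (fun q => (1, q.1.1, q.2))
  obtain ⟨y, hy, hyv⟩ := values hmin hf hind N L 1 v
  refine ⟨y, ?_⟩
  rintro ⟨p, hp, hk⟩
  apply hv p hp
  simp only [bad, Fintype.mem_piFinset]
  intro k
  by_cases hkp : k.1 < p.2
  · rw [if_pos hkp, Finset.mem_singleton]
    have h1 := hy (1, p.1, k.1) (Finset.mem_image.2 ⟨(p, k.1), Finset.mem_product.2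
      ⟨hp, Finset.mem_range.2 k.2⟩, rfl⟩)
    have h2 := hk k.1 hkp
    have h3 := hyv k
    have h4 : prof f (1, p.1, k.1) y = f k.1 (p.1 * y) - f k.1 y := by simp [prof]
    rw [h4, h2, h3] at h1
    have h5 : prof f (1, p.1, k.1) 1 = a p.1 k.1 := rfl
    rw [h5] at h1
    rw [← h1]; ring
  · rw [if_neg hkp]; exact Finset.mem_univ _

/-- The submeasure. -/
noncomputable def mu (f : ℕ → G → ZMod 2) (A : Set G) : ℝ :=
  sInf ({r | ∃ T : Finset (G × ℕ), (∀ x ∈ A, Hit f T x) ∧ r = cost T} ∪ {1})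

/-- The set in the definition of `mu`. -/
def MS (f : ℕ → G → ZMod 2) (A : Set G) : Set ℝ :=
  {r | ∃ T : Finset (G × ℕ), (∀ x ∈ A, Hit f T x) ∧ r = cost T} ∪ {1}

theorem MS_bdd (f : ℕ → G → ZMod 2) (A : Set G) : BddBelow (MS f A) := by
  refine ⟨0, ?_⟩
  rintro r (⟨T, _, rfl⟩ | rfl)
  · exact cost_nonneg T
  · norm_num

theorem MS_ne (f : ℕ → G → ZMod 2) (A : Set G) : (MS f A).Nonempty := ⟨1, Or.inr rfl⟩

theorem mu_nonneg (f : ℕ → G → ZMod 2) (A : Set G) : 0 ≤ mu f A := by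
  apply le_csInf (MS_ne f A)
  rintro r (⟨T, _, rfl⟩ | rfl)
  · exact cost_nonneg T
  · norm_num

theorem mu_le_one (f : ℕ → G → ZMod 2) (A : Set G) : mu f A ≤ 1 :=
  csInf_le (MS_bdd f A) (Or.inr rfl)

theorem mu_le_cost {A : Set G} {T : Finset (G × ℕ)} (h : ∀ x ∈ A, Hit f T x) :
    mu f A ≤ cost T := csInf_le (MS_bdd f A) (Or.inl ⟨T, h, rfl⟩)

theorem mu_mono {A B : Set G} (h : A ⊆ B) : mu f A ≤ mu f B := by
  apply le_csInf (MS_ne f B)
  rintro r (⟨T, hT, rfl⟩ | rfl)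
  · exact mu_le_cost fun x hx => hT x (h hx)
  · exact mu_le_one f A

theorem exists_of_mu_lt {A : Set G} {c : ℝ} (hc : c ≤ 1) (h : mu f A < c) :
    ∃ T : Finset (G × ℕ), (∀ x ∈ A, Hit f T x) ∧ cost T < c := by
  obtain ⟨r, hr, hrc⟩ := exists_lt_of_csInf_lt (MS_ne f A) h
  rcases hr with ⟨T, hT, rfl⟩ | rfl
  · exact ⟨T, hT, hrc⟩
  · exact absurd hrc (not_lt.2 hc)

theorem cost_union_le [DecidableEq G] (S T : Finset (G × ℕ)) :
    cost (S ∪ T) ≤ cost S + cost T := by
  unfold cost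
  rw [← Finset.sum_union_inter]
  exact le_add_of_nonneg_right (Finset.sum_nonneg fun _ _ => by positivity)

theorem mu_union (A B : Set G) : mu f (A ∪ B) ≤ mu f A + mu f B := by
  classical
  by_contra hcon
  push Not at hcon
  by_cases hA : mu f A < 1
  swap
  · have := mu_le_one f (A ∪ B); have := mu_nonneg f B; linarith
  by_cases hB : mu f B < 1
  swap
  · have := mu_le_one f (A ∪ B); have := mu_nonneg f A; linarith
  set ε := (mu f (A ∪ B) - (mu f A + mu f B)) / 2 with hε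
  have hεpos : 0 < ε := by rw [hε]; linarith
  obtain ⟨S, hS, hSc⟩ := exists_of_mu_lt (f := f) (A := A) (c := min 1 (mu f A + ε))
    (min_le_left _ _) (lt_min hA (by linarith))
  obtain ⟨T, hT, hTc⟩ := exists_of_mu_lt (f := f) (A := B) (c := min 1 (mu f B + ε))
    (min_le_left _ _) (lt_min hB (by linarith))
  have h1 : mu f (A ∪ B) ≤ cost (S ∪ T) := by
    apply mu_le_cost
    rintro x (hx | hx)
    · obtain ⟨p, hp, h⟩ := hS x hx
      exact ⟨p, Finset.mem_union_left _ hp, h⟩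
    · obtain ⟨p, hp, h⟩ := hT x hx
      exact ⟨p, Finset.mem_union_right _ hp, h⟩
  have h2 := cost_union_le S T
  have h3 := hSc.trans_le (min_le_right _ _)
  have h4 := hTc.trans_le (min_le_right _ _)
  rw [hε] at h3 h4
  linarith

theorem mu_translate_le (g : G) (A : Set G) : mu f ((fun y => g * y) '' A) ≤ mu f A := by
  classical
  apply le_csInf (MS_ne f A)
  rintro r (⟨T, hT, rfl⟩ | rfl)
  · have hinj : Function.Injective (fun p : G × ℕ => (p.1 * g⁻¹, p.2)) := by
      rintro ⟨a, n⟩ ⟨b, m⟩ h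
      simp only [Prod.mk.injEq, mul_left_inj] at h
      exact Prod.ext h.1 h.2
    have hc : cost T = cost (T.image (fun p => (p.1 * g⁻¹, p.2))) := by
      unfold cost
      rw [Finset.sum_image fun a _ b _ h => hinj h]
    rw [hc]
    apply mu_le_cost
    rintro _ ⟨x, hx, rfl⟩
    obtain ⟨p, hp, h⟩ := hT x hx
    refine ⟨(p.1 * g⁻¹, p.2), Finset.mem_image_of_mem _ hp, fun k hk => ?_⟩
    have := h k hk
    simpa [mul_assoc] using this
  · exact mu_le_one f _

theorem mu_translate (g : G) (A : Set G) : mu f ((fun y => g * y) '' A) = mu f A := by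
  apply le_antisymm (mu_translate_le g A)
  have h := mu_translate_le (f := f) g⁻¹ ((fun y => g * y) '' A)
  rw [image_image] at h
  simpa using h

theorem hasSyndetic_of_ind (hmin : ∀ p : Ultrafilter G, ∃ q : Ultrafilter G, q * (p * u) = u)
    (hf : ∀ k, Fix u (f k)) (hind : Ind f) : HasSyndeticSubmeasure G := by
  classical
  refine ⟨mu f, fun A => ⟨mu_nonneg f A, mu_le_one f A⟩, ?_, ?_, fun A B h => mu_mono h,
    mu_union, mu_translate, ?_⟩
  · apply le_antisymm _ (mu_nonneg f _)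
    have := mu_le_cost (f := f) (A := ∅) (T := ∅) (by simp)
    simpa [cost] using this
  · apply le_antisymm (mu_le_one f _)
    by_contra hcon
    push Not at hcon
    obtain ⟨T, hT, hTc⟩ := exists_of_mu_lt le_rfl hcon
    obtain ⟨x, hx⟩ := nocover hmin hf hind T hTc
    exact hx (hT x trivial)
  · intro A hA ε hε
    have hε0 : 0 < ε := lt_of_le_of_lt (by positivity) hε
    obtain ⟨T, hT, hTc⟩ := exists_of_mu_lt le_rfl hA
    obtain ⟨x₀, hx₀⟩ := nocover hmin hf hind T hTc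
    obtain ⟨n, hn⟩ := exists_pow_lt_of_lt_one hε0 (show (1 / 2 : ℝ) < 1 by norm_num)
    obtain ⟨s, _, hs⟩ := values hmin hf hind n ∅ 1 (fun _ => 0)
    let B : Set G := {x | ¬ Hit f T x ∧ ∀ k ∈ Finset.range n, f k (s * x₀⁻¹ * x) = 0}
    have hBfix : Fix u (fun x => x ∈ B) := by
      have h1 : Fix u (fun x => ∀ p ∈ T, ¬ ∀ k ∈ Finset.range p.2, f k (p.1 * x) = 0) := by
        apply Fix.forall_finset T
        intro p _
        refine Fix.map ?_ Not
        apply Fix.forall_finset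
        intro k _
        exact ((hf k).translate p.1).map (fun a => a = 0)
      have h2 : Fix u (fun x => ∀ k ∈ Finset.range n, f k (s * x₀⁻¹ * x) = 0) := by
        apply Fix.forall_finset
        intro k _
        exact ((hf k).translate (s * x₀⁻¹)).map (fun a => a = 0)
      have h3 := h1.map₂ h2 (fun a b => a ∧ b)
      refine (iff_of_eq (congrArg (Fix u) (funext fun x => propext ?_))).1 h3
      simp only [B, Hit, mem_ofPred_eq, Finset.mem_range, not_exists, not_and]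
    have hx₀B : x₀ ∈ B := by
      refine ⟨hx₀, fun k hk => ?_⟩
      rw [inv_mul_cancel_right]
      exact hs ⟨k, Finset.mem_range.1 hk⟩
    obtain ⟨Γ, hΓ⟩ := Fix.syndetic hmin hBfix hx₀B
    refine ⟨B, fun x hx hxA => hx.1 (hT x hxA), ?_, Γ.image (·⁻¹), fun g => ?_⟩
    · refine lt_of_le_of_lt (mu_le_cost (T := {(s * x₀⁻¹, n)}) ?_) (by simpa [cost] using hn)
      intro x hx
      exact ⟨_, Finset.mem_singleton_self _, fun k hk => hx.2 k (Finset.mem_range.2 hk)⟩
    · obtain ⟨γ, hγ, hγg⟩ := hΓ g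
      exact ⟨γ⁻¹, Finset.mem_image_of_mem _ hγ, γ * g, hγg, by simp⟩

end Helper24SM
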