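import Mathlib
import Pool.Agent.Helper24_SM.Main

namespace Pool.Agent.Results.MP_e6747d_al.NoSmallRamseyLarge

open Helper24SM Cardinal

universe v w

/-- If a group `G` has an infinite quotient `Q` in which no subset of cardinality less than `|Q|` is
Ramsey-large, then `G` has a left-invariant syndetic submeasure. -/
theorem result (G : Type w) (Q : Type v) [Group G] [Group Q] [Infinite Q] (φ : G →* Q)
    (hφ : Function.Surjective φ) (H : ∀ S : Set Q, #S < #Q → ¬ RamseyLarge S) :
    HasSyndeticSubmeasure G :=
  (main H).comap φ hφ

end Pool.Agent.Results.MP_e6747d_al.NoSmallRamseyLarge
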