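import Pool.Agent.Helper24_SM.Main

/-!
# Special linear groups over uncountable fields (helper24)
-/

namespace Helper24SM

open Filter Set Cardinal Matrix

universe v

theorem exists_valuationSubring {K : Type v} [Field K] [Uncountable K] (s : Set K)
    (hs : #s < #K) : ∃ V : ValuationSubring K, s ⊆ V ∧ ∃ t, t ∉ V := by
  have hK : ℵ₀ < #K := Cardinal.aleph0_lt_mk
  by_contra hcon
  push Not at hcon
  have h1 := iInf_valuationSubring_superset (K := K) (s := s)
  have h2 : (⨅ V : {V : ValuationSubring K // s ⊆ V.toSubring}, V.1.toSubring) = ⊤ := by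
    rw [iInf_eq_top]
    rintro ⟨V, hV⟩
    rw [eq_top_iff]
    intro x _
    exact hcon V hV x
  rw [h2] at h1
  have h3 : ∀ x : K, IsIntegral (Subring.closure s) x := by
    intro x
    have : x ∈ (integralClosure (Subring.closure s) K).toSubring := by rw [← h1]; trivial
    exact this
  have h4 : Algebra.IsIntegral (Subring.closure s) K := ⟨h3⟩
  have h5 : #(Subring.closure s) ≤ max #s ℵ₀ := by
    refine le_trans ?_ (Subfield.cardinalMk_closure_le_max (s := s))
    refine Cardinal.mk_le_mk_of_subset ?_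
    exact Subring.closure_le.2 (Subfield.subset_closure (s := s))
  have h6 : #K ≤ max #(Subring.closure s) ℵ₀ :=
    Algebra.IsAlgebraic.cardinalMk_le_max (Subring.closure s) K
  have h7 : #K ≤ max #s ℵ₀ := h6.trans (max_le h5 (le_max_right _ _))
  exact absurd h7 (not_le.2 (max_lt hs hK))

section norm

variable {K : Type v} [Field K] {n : ℕ}

/-- The norm of a vector. -/
noncomputable def vnorm (V : ValuationSubring K) (w : Fin n → K) : V.ValueGroup :=
  Finset.univ.sup fun i => V.valuation (w i)

theorem le_vnorm (V : ValuationSubring K) (w : Fin n → K) (i : Fin n) :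
    V.valuation (w i) ≤ vnorm V w :=
  Finset.le_sup (f := fun i => V.valuation (w i)) (Finset.mem_univ i)

theorem vnorm_le_iff (V : ValuationSubring K) (w : Fin n → K) (γ : V.ValueGroup) :
    vnorm V w ≤ γ ↔ ∀ i, V.valuation (w i) ≤ γ := by
  unfold vnorm
  simp [Finset.sup_le_iff]

theorem vnorm_mulVec_le (V : ValuationSubring K) (A : Matrix (Fin n) (Fin n) K)
    (hA : ∀ i j, A i j ∈ V) (w : Fin n → K) : vnorm V (A *ᵥ w) ≤ vnorm V w := by
  rw [vnorm_le_iff]
  intro i
  rw [Matrix.mulVec, dotProduct]
  apply Valuation.map_sum_le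
  intro j _
  rw [map_mul]
  calc V.valuation (A i j) * V.valuation (w j) ≤ 1 * vnorm V w := by
        gcongr
        · exact (V.valuation_le_one_iff _).2 (hA i j)
        · exact le_vnorm V w j
    _ = vnorm V w := one_mul _

theorem exists_argmax (V : ValuationSubring K) [NeZero n] (w : Fin n → K) :
    ∃ i, V.valuation (w i) = vnorm V w := by
  obtain ⟨i, _, hi⟩ := Finset.exists_max_image Finset.univ (fun i => V.valuation (w i))
    ⟨0, Finset.mem_univ _⟩
  refine ⟨i, le_antisymm (le_vnorm V w i) ?_⟩
  rw [vnorm_le_iff]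
  exact fun j => hi j (Finset.mem_univ _)

theorem vnorm_ne_zero (V : ValuationSubring K) (w : Fin n → K) (hw : w ≠ 0) : vnorm V w ≠ 0 := by
  intro h
  apply hw
  funext i
  have := le_vnorm V w i
  rw [h] at this
  have h2 := le_antisymm this (zero_le)
  simpa using h2

/-- diagonal entries -/
def dent (t : K) (i l : Fin n) (m : Fin n) : K := if m = i then t else if m = l then t⁻¹ else 1

theorem dent_prod (t : K) (ht : t ≠ 0) (i l : Fin n) (hil : l ≠ i) :
    ∏ m, dent t i l m = 1 := by
  classical
  rw [← Finset.mul_prod_erase Finset.univ _ (Finset.mem_univ i),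
    ← Finset.mul_prod_erase (Finset.univ.erase i) _ (Finset.mem_erase.2 ⟨hil, Finset.mem_univ l⟩)]
  have h1 : ∏ m ∈ (Finset.univ.erase i).erase l, dent t i l m = 1 := by
    apply Finset.prod_eq_one
    intro m hm
    simp only [Finset.mem_erase, Finset.mem_univ, and_true] at hm
    simp [dent, hm.1, hm.2]
  rw [h1]
  simp [dent, hil, ht]

theorem vnorm_diag (V : ValuationSubring K) [NeZero n] (t : K) (ht : t ∉ V) (w : Fin n → K)
    (i l : Fin n) (hi : V.valuation (w i) = vnorm V w) :
    vnorm V (fun m => dent t i l m * w m) = V.valuation t * vnorm V w := by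
  have ht1 : 1 < V.valuation t := by
    rw [← not_le, V.valuation_le_one_iff]; exact ht
  have ht0 : t ≠ 0 := by
    rintro rfl; exact ht V.zero_mem
  apply le_antisymm
  · rw [vnorm_le_iff]
    intro m
    rw [map_mul]
    gcongr
    · unfold dent
      split_ifs
      · exact le_rfl
      · rw [map_inv₀]
        exact (inv_le_one_of_one_le₀ ht1.le).trans ht1.le
      · rw [map_one]; exact ht1.le
    · exact le_vnorm V w m
  · have := le_vnorm V (fun m => dent t i l m * w m) i
    simpa [dent, hi] using this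

end norm

theorem infinite_SL {K : Type v} [Field K] [Infinite K] {n : ℕ} (hn : 2 ≤ n) :
    Infinite (SpecialLinearGroup (Fin n) K) := by
  have h01 : (⟨0, by omega⟩ : Fin n) ≠ ⟨1, by omega⟩ := by
    intro h; simp at h
  refine Infinite.of_injective (fun a : K => (⟨transvection ⟨0, by omega⟩ ⟨1, by omega⟩ a,
    det_transvection_of_ne _ _ h01 a⟩ : SpecialLinearGroup (Fin n) K)) ?_
  intro a b h
  have h1 := congrArg (fun A : SpecialLinearGroup (Fin n) K => A.1 ⟨0, by omega⟩ ⟨1, by omega⟩) h
  simpa [transvection, Matrix.one_apply, h01] using h1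

theorem mk_SL_le {K : Type v} [Field K] [Infinite K] {n : ℕ} :
    #(SpecialLinearGroup (Fin n) K) ≤ #K := by
  have h0 : ℵ₀ ≤ #K := Cardinal.aleph0_le_mk K
  refine (Cardinal.mk_le_of_injective (f := fun A : SpecialLinearGroup (Fin n) K =>
    fun p : Fin n × Fin n => A.1 p.1 p.2) ?_).trans ?_
  · intro A B h
    apply Subtype.ext
    ext i j
    exact congrFun h (i, j)
  · have : #(Fin n × Fin n → K) = #K ^ (n * n : ℕ) := by
      rw [← Cardinal.power_natCast]
      simp
    rw [this]
    exact Cardinal.power_nat_le h0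

theorem not_ramseyLarge_SL {K : Type v} [Field K] [Uncountable K] {n : ℕ} (hn : 2 ≤ n)
    (S : Set (SpecialLinearGroup (Fin n) K)) (hS : #S < #(SpecialLinearGroup (Fin n) K)) :
    ¬ RamseyLarge S := by
  classical
  have hn0 : NeZero n := ⟨by omega⟩
  have hK : ℵ₀ < #K := Cardinal.aleph0_lt_mk
  -- entries
  let s : Set K := range fun q : S × (Fin n × Fin n) => q.1.1.1 q.2.1 q.2.2
  have hs : #s < #K := by
    refine lt_of_le_of_lt Cardinal.mk_range_le ?_
    rw [Cardinal.mk_prod]
    apply Cardinal.mul_lt_of_lt hK.le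
    · simpa using hS.trans_le mk_SL_le
    · refine lt_of_le_of_lt ?_ hK
      simp only [Cardinal.lift_le_aleph0]
      exact Cardinal.mk_le_aleph0
  obtain ⟨V, hV, t, ht⟩ := exists_valuationSubring s hs
  have ht0 : t ≠ 0 := by
    rintro rfl; exact ht V.zero_mem
  have hentry : ∀ A ∈ S, ∀ i j, A.1 i j ∈ V := fun A hA i j =>
    hV ⟨(⟨A, hA⟩, (i, j)), rfl⟩
  have hentry' : ∀ A ∈ S, ∀ i j, (A⁻¹).1 i j ∈ V := by
    intro A hA i j
    let B : Matrix (Fin n) (Fin n) V := Matrix.of fun i j => ⟨A.1 i j, hentry A hA i j⟩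
    have hB : B.map (V.subtype) = A.1 := by
      ext i j; rfl
    have h1 : (A⁻¹).1 = (adjugate B).map V.subtype := by
      have : (A⁻¹).1 = adjugate A.1 := Matrix.SpecialLinearGroup.coe_inv A
      rw [this, ← hB]
      exact (RingHom.map_adjugate V.subtype B).symm
    rw [h1]
    exact (adjugate B i j).2
  let col : SpecialLinearGroup (Fin n) K → (Fin n → K) := fun x i => x.1 i 0
  have hcol : ∀ A x, col (A * x) = A.1 *ᵥ col x := by
    intro A x
    funext i
    rfl
  have hcol0 : ∀ x, col x ≠ 0 := by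
    intro x h
    have h1 := x.2
    rw [Matrix.det_eq_zero_of_column_eq_zero 0 (fun i => congrFun h i)] at h1
    exact zero_ne_one h1
  have hinv : ∀ A ∈ S, ∀ x, vnorm V (col (A * x)) = vnorm V (col x) := by
    intro A hA x
    apply le_antisymm
    · rw [hcol]; exact vnorm_mulVec_le V _ (hentry A hA) _
    · have h1 : col x = (A⁻¹).1 *ᵥ col (A * x) := by
        rw [← hcol, inv_mul_cancel_left]
      conv_lhs => rw [h1]
      exact vnorm_mulVec_le V _ (hentry' A hA) _
  let φ : SpecialLinearGroup (Fin n) K → (V.ValueGroup)ˣ := fun x =>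
    Units.mk0 (vnorm V (col x)) (vnorm_ne_zero V _ (hcol0 x))
  let τ : (V.ValueGroup)ˣ := Units.mk0 (V.valuation t) ((map_ne_zero _).2 ht0)
  have hτ1 : 1 < τ := by
    rw [← Units.val_lt_val]
    simp only [τ, Units.val_one, Units.val_mk0]
    rw [← not_le, V.valuation_le_one_iff]; exact ht
  have hτ : ¬ IsOfFinOrder τ := by
    rw [isOfFinOrder_iff_pow_eq_one]
    rintro ⟨m, hm, hm1⟩
    have := one_lt_pow' hτ1 hm.ne'
    rw [hm1] at this
    exact lt_irrefl _ this
  let oth : Fin n → Fin n := fun i => if i = ⟨0, by omega⟩ then ⟨1, by omega⟩ else ⟨0, by omega⟩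
  have hoth : ∀ i, oth i ≠ i := by
    intro i
    by_cases h : i = ⟨0, by omega⟩
    · simp only [oth, h, if_true]
      intro h'; simp at h'
    · simp only [oth, h, if_false]
      exact fun h' => h h'.symm
  let D : Fin n → SpecialLinearGroup (Fin n) K := fun i =>
    ⟨Matrix.diagonal (dent t i (oth i)), by
      rw [Matrix.det_diagonal]; exact dent_prod t ht0 i _ (hoth i)⟩
  apply not_ramseyLarge_of_translation τ hτ φ (fun A hA x => by
    apply Units.ext
    exact hinv A hA x) (Finset.univ.image D)
  intro x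
  obtain ⟨i, hi⟩ := exists_argmax V (col x)
  refine ⟨D i, Finset.mem_image_of_mem _ (Finset.mem_univ _), ?_⟩
  apply Units.ext
  have h1 : col (D i * x) = fun m => dent t i (oth i) m * col x m := by
    rw [hcol]
    funext m
    simp only [D, Matrix.mulVec_diagonal]
  simp only [φ, τ, Units.val_mul, Units.val_mk0]
  rw [h1]
  exact vnorm_diag V t ht (col x) i _ hi

theorem SL_hasSyndetic {K : Type v} [Field K] [Uncountable K] {n : ℕ} (hn : 2 ≤ n) :
    HasSyndeticSubmeasure (SpecialLinearGroup (Fin n) K) := by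
  have : Infinite (SpecialLinearGroup (Fin n) K) := infinite_SL hn
  exact main (not_ramseyLarge_SL hn)

end Helper24SM
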