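import Mathlib

/-!
# Minimal idempotent ultrafilters on a group and fixed functions (helper24)
-/

namespace Helper24SM

open Filter Set

attribute [local instance] Ultrafilter.mul Ultrafilter.semigroup

variable {G : Type*} [Group G]

/-- A nonempty closed left ideal of the semigroup of ultrafilters. -/
def IsCLI (L : Set (Ultrafilter G)) : Prop :=
  IsClosed L ∧ L.Nonempty ∧ ∀ p : Ultrafilter G, ∀ x ∈ L, p * x ∈ L

theorem exists_minimal_cli :
    ∃ L : Set (Ultrafilter G), IsCLI L ∧ ∀ L', IsCLI L' → L' ⊆ L → L' = L := by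
  have hne : (univ : Set (Ultrafilter G)).Nonempty := ⟨pure 1, trivial⟩
  obtain ⟨L, hL⟩ := zorn_superset {L : Set (Ultrafilter G) | IsCLI L} (by
    intro c hc hchain
    rcases c.eq_empty_or_nonempty with rfl | hcne
    · exact ⟨univ, ⟨isClosed_univ, hne, fun _ _ _ => trivial⟩, by simp⟩
    · refine ⟨⋂₀ c, ⟨?_, ?_, ?_⟩, fun s hs => sInter_subset_of_mem hs⟩
      · exact isClosed_sInter fun s hs => (hc hs).1
      · have : Nonempty c := hcne.to_subtype
        exact IsCompact.nonempty_sInter_of_directed_nonempty_isCompact_isClosed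
          (IsChain.directedOn (r := fun x y : Set (Ultrafilter G) => x ⊇ y) (IsChain.symm hchain))
          (fun s hs => (hc hs).2.1) (fun s hs => (hc hs).1.isCompact) (fun s hs => (hc hs).1)
      · intro p x hx s hs
        exact (hc hs).2.2 p x (hx s hs))
  exact ⟨L, hL.prop, fun L' hL' hsub => subset_antisymm hsub (hL.le_of_le hL' hsub)⟩

/-- A minimal idempotent. -/
theorem exists_min_idem :
    ∃ u : Ultrafilter G, u * u = u ∧ ∀ p : Ultrafilter G, ∃ q : Ultrafilter G, q * (p * u) = u := by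
  obtain ⟨L, hL, hmin⟩ := exists_minimal_cli (G := G)
  obtain ⟨u, huL, huu⟩ := exists_idempotent_in_compact_subsemigroup
    (M := Ultrafilter G) Ultrafilter.continuous_mul_left L hL.2.1 hL.1.isCompact
    (fun x _ y hy => hL.2.2 x y hy)
  refine ⟨u, huu, fun p => ?_⟩
  have hpu : p * u ∈ L := hL.2.2 p u huL
  have hcl : IsCLI (range fun q : Ultrafilter G => q * (p * u)) := by
    refine ⟨(isCompact_range (Ultrafilter.continuous_mul_left (p * u))).isClosed,
      ⟨_, ⟨p, rfl⟩⟩, ?_⟩
    rintro r _ ⟨q, rfl⟩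
    exact ⟨r * q, by simp only [mul_assoc]⟩
  have := hmin _ hcl (by
    rintro _ ⟨q, rfl⟩
    exact hL.2.2 q _ hpu)
  rw [← this] at huL
  exact huL

/-- `f` is fixed by the retraction attached to `u`. -/
def Fix (u : Ultrafilter G) {V : Type*} (f : G → V) : Prop :=
  ∀ x, ∀ᶠ y in (u : Filter G), f (x * y) = f x

variable {u : Ultrafilter G}

theorem Fix.map {V W : Type*} {f : G → V} (hf : Fix u f) (Φ : V → W) :
    Fix u (fun x => Φ (f x)) := fun x => (hf x).mono fun y hy => by simp only [hy]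

theorem Fix.map₂ {V V' W : Type*} {f : G → V} {f' : G → V'} (hf : Fix u f) (hf' : Fix u f')
    (Φ : V → V' → W) : Fix u (fun x => Φ (f x) (f' x)) :=
  fun x => ((hf x).and (hf' x)).mono fun y hy => by simp only [hy.1, hy.2]

theorem Fix.translate {V : Type*} {f : G → V} (hf : Fix u f) (g : G) :
    Fix u (fun x => f (g * x)) := fun x => (hf (g * x)).mono fun y hy => by
  simpa only [mul_assoc] using hy

theorem Fix.const {V : Type*} (v : V) : Fix u (fun _ : G => v) :=
  fun _ => Eventually.of_forall fun _ => rfl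

theorem Fix.pi {V ι : Type*} [Finite ι] {f : ι → G → V} (hf : ∀ i, Fix u (f i)) :
    Fix u (fun x => fun i => f i x) := by
  intro x
  have : ∀ᶠ y in (u : Filter G), ∀ i, f i (x * y) = f i x := by
    rw [eventually_all]
    exact fun i => hf i x
  exact this.mono fun y hy => funext hy

/-- The retraction. -/
theorem exists_retract (hu : u * u = u) {V : Type*} [Finite V] (f : G → V) :
    ∃ F : G → V, Fix u F ∧ ∀ x, ∀ᶠ y in (u : Filter G), f (x * y) = F x := by
  have hlim : ∀ x, ∃ v, ∀ᶠ y in (u : Filter G), f (x * y) = v := by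
    intro x
    have h := (Ultrafilter.finite_biUnion_mem_iff (f := u) (is := (univ : Set V)) finite_univ
      (s := fun v => {y | f (x * y) = v})).1 (by
        have : (⋃ i ∈ (univ : Set V), {y | f (x * y) = i}) = univ := by
          ext y; simp
        rw [this]; exact univ_mem)
    obtain ⟨v, _, hv⟩ := h
    exact ⟨v, hv⟩
  choose F hF using hlim
  refine ⟨F, fun x => ?_, hF⟩
  have h1 := hF x
  have h2 : ∀ᶠ m in ((u * u : Ultrafilter G) : Filter G), f (x * m) = F x := by
    rw [hu]; exact h1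
  rw [Ultrafilter.eventually_mul] at h2
  refine h2.mono fun y hy => ?_
  have h3 := hF (x * y)
  obtain ⟨z, hz1, hz2⟩ := (hy.and h3).exists
  rw [← hz2, ← hz1, mul_assoc]

/-- Syndeticity of the values of fixed functions. -/
theorem Fix.syndetic (hmin : ∀ p : Ultrafilter G, ∃ q : Ultrafilter G, q * (p * u) = u)
    {f : G → Prop} (hf : Fix u f) {x₀ : G} (hx₀ : f x₀) :
    ∃ Γ : Finset G, ∀ x, ∃ g ∈ Γ, f (g * x) := by
  classical
  by_contra hcon
  push Not at hcon
  obtain ⟨p, hp⟩ := Ultrafilter.exists_ultrafilter_of_finite_inter_nonempty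
    {s : Set G | ∃ g : G, s = {x | ¬ f (g * x)}} (by
      intro T hT
      have hT' : ∀ s ∈ T, ∃ g : G, s = {x | ¬ f (g * x)} := fun s hs => hT hs
      choose! γ hγ using hT'
      obtain ⟨x, hx⟩ := hcon (T.image γ)
      refine ⟨x, fun s hs => ?_⟩
      rw [hγ s hs]
      exact hx _ (Finset.mem_image_of_mem _ hs))
  obtain ⟨q, hq⟩ := hmin p
  have h1 : ∀ᶠ m in (u : Filter G), f (x₀ * m) :=
    (hf x₀).mono fun y hy => by rw [hy]; exact hx₀
  have h2 : ∀ᶠ m in ((q * (p * u) : Ultrafilter G) : Filter G), f (x₀ * m) := by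
    rw [hq]; exact h1
  rw [Ultrafilter.eventually_mul] at h2
  obtain ⟨a, ha⟩ := h2.exists
  rw [Ultrafilter.eventually_mul] at ha
  have hb : ∀ᶠ b in (p : Filter G), f (x₀ * a * b) := by
    refine ha.mono fun b hb => ?_
    have h3 := hf (x₀ * (a * b))
    obtain ⟨c, hc1, hc2⟩ := (hb.and h3).exists
    have hc3 : x₀ * (a * (b * c)) = x₀ * (a * b) * c := by simp only [mul_assoc]
    rw [hc3, hc2] at hc1
    simpa only [mul_assoc] using hc1
  have hb' : ∀ᶠ b in (p : Filter G), ¬ f (x₀ * a * b) := hp ⟨x₀ * a, rfl⟩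
  obtain ⟨b, hb1, hb2⟩ := (hb.and hb').exists
  exact hb2 hb1

end Helper24SM
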